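import Pool.Agent.Run7.h325.RSI.Stm

/-!
# RSI/DIR (helper889)
-/

set_option autoImplicit false

namespace Run7.h889.RSI

open MeasureTheory Filter Topology Metric Pool.Agent.Run7.h325.RSI

lemma hh_pos (m : ℕ) : 0 < hh m := by
  unfold hh
  positivity

lemma hh_le (m : ℕ) : hh m ≤ 1 / 1024 := by
  unfold hh
  have : (1 : ℝ) ≤ 4 ^ m ^ 4 := one_le_pow₀ (by norm_num)
  exact one_div_le_one_div_of_le (by norm_num) (by linarith)

lemma zz_sub (I J : ℤ × ℤ) : zz (J - I) = zz J - ze I := by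
  ext i
  fin_cases i
  · simp [zz, ze]
    ring
  · simp [zz, ze]
    ring

lemma half_sq (n : ℤ) : (1 : ℝ) / 4 ≤ ((n : ℝ) + 1 / 2) ^ 2 := by
  rcases le_or_gt 0 n with h | h
  · have : (0 : ℝ) ≤ n := by exact_mod_cast h
    nlinarith
  · have : (n : ℝ) ≤ -1 := by exact_mod_cast (by omega : n ≤ -1)
    nlinarith

lemma norm_zz_ge (p : ℤ × ℤ) : 7 / 10 ≤ ‖zz p‖ := by
  have h : ‖zz p‖ ^ 2 = ((p.1 : ℝ) + 1 / 2) ^ 2 + ((p.2 : ℝ) + 1 / 2) ^ 2 := by
    rw [EuclideanSpace.norm_sq_eq]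
    simp [zz, Fin.sum_univ_two]
  have h1 := half_sq p.1
  have h2 := half_sq p.2
  by_contra hc
  push Not at hc
  have h3 := norm_nonneg (zz p)
  nlinarith

/-- the directions of two close vectors -/
lemma dir_close {v P : E2} (hv : v ≠ 0) (hP : P ≠ 0) :
    ‖‖v‖⁻¹ • v - ‖P‖⁻¹ • P‖ ≤ 2 * ‖v - P‖ / ‖P‖ := by
  have hv' : 0 < ‖v‖ := norm_pos_iff.2 hv
  have hP' : 0 < ‖P‖ := norm_pos_iff.2 hP
  have e : ‖v‖⁻¹ • v - ‖P‖⁻¹ • P = ‖P‖⁻¹ • (v - P) + (‖v‖⁻¹ - ‖P‖⁻¹) • v := by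
    rw [smul_sub, sub_smul]
    abel
  rw [e]
  refine (norm_add_le _ _).trans ?_
  rw [norm_smul, norm_smul, norm_inv, norm_norm]
  have h1 : ‖‖v‖⁻¹ - ‖P‖⁻¹‖ * ‖v‖ = |‖P‖ - ‖v‖| / ‖P‖ := by
    rw [Real.norm_eq_abs, inv_sub_inv hv'.ne' hP'.ne', abs_div, abs_mul, abs_of_pos hv',
      abs_of_pos hP']
    field_simp
  have h2 : |‖P‖ - ‖v‖| ≤ ‖v - P‖ := by
    rw [norm_sub_rev]
    exact abs_norm_sub_norm_le P v
  rw [h1]
  have h3 : |‖P‖ - ‖v‖| / ‖P‖ ≤ ‖v - P‖ / ‖P‖ := div_le_div_of_nonneg_right h2 hP'.le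
  calc ‖P‖⁻¹ * ‖v - P‖ + |‖P‖ - ‖v‖| / ‖P‖ ≤ ‖P‖⁻¹ * ‖v - P‖ + ‖v - P‖ / ‖P‖ := by linarith
    _ = 2 * ‖v - P‖ / ‖P‖ := by
        field_simp
        ring

theorem t_DIR : S_DIR := by
  intro m I J x y hm hI hJ hx hy
  have hh0 := hh_pos m
  have hh1 := hh_le m
  have he : ‖(x - y) - zz (J - I)‖ ≤ hh m / 16 := by
    have e : (x - y) - zz (J - I) = (x - zz J) - (y - ze I) := by
      rw [zz_sub]
      abel
    rw [e]
    refine (norm_sub_le _ _).trans ?_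
    have : rho m = hh m / 32 := rfl
    linarith
  have hP := norm_zz_ge (J - I)
  have hPn : zz (J - I) ≠ 0 := by
    rw [← norm_pos_iff]
    linarith
  have hv1 : ‖zz (J - I)‖ - ‖(x - y) - zz (J - I)‖ ≤ ‖x - y‖ := by
    have := norm_sub_norm_le (zz (J - I)) (zz (J - I) - (x - y))
    rw [sub_sub_cancel] at this
    rw [norm_sub_rev (x - y)]
    exact this
  have hv2 : ‖x - y‖ ≤ ‖(x - y) - zz (J - I)‖ + ‖zz (J - I)‖ := by
    have := norm_add_le ((x - y) - zz (J - I)) (zz (J - I))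
    rwa [sub_add_cancel] at this
  have hv3 : 1 / 2 ≤ ‖x - y‖ := by linarith
  refine ⟨?_, hv3, by linarith⟩
  have hvn : x - y ≠ 0 := by
    rw [← norm_pos_iff]
    linarith
  have hmem : ‖zz (J - I)‖⁻¹ • zz (J - I) ∈ Dhat m := by
    refine ⟨J - I, ?_, rfl⟩
    simp only [BI, BJ, DD, Finset.mem_product, Finset.mem_Ico, Prod.fst_sub, Prod.snd_sub]
      at hI hJ ⊢
    have hN : (0 : ℤ) < 2 ^ m ^ 4 := by positivity
    omega
  have h1 : infDist (‖x - y‖⁻¹ • (x - y)) (Dhat m) ≤ hh m / 4 := by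
    refine (infDist_le_dist_of_mem hmem).trans ?_
    rw [dist_eq_norm]
    refine (dir_close hvn hPn).trans ?_
    rw [div_le_iff₀ (by linarith)]
    nlinarith
  unfold Psi
  refine le_max_of_le_right ?_
  have h2 : infDist (‖x - y‖⁻¹ • (x - y)) (Dhat m) / hh m ≤ 1 / 4 := by
    rw [div_le_iff₀ hh0]
    linarith
  linarith

theorem t_TLOW (hMASS : S_MASS) (hSUM : S_SUM) (hDIR : S_DIR) (hCM : S_CM) (hPSI : S_PSI) :
    S_TLOW := by
  intro m φ β β0 J x hm hφ hJ hx hβ0 hβ hint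
  obtain ⟨hφc, -, hφi, hφm⟩ := hMASS m φ hm hφ
  obtain ⟨hPc, hP0, hP1, -⟩ := hPSI m hm
  obtain ⟨hc0, hc1⟩ := hCM m hm
  -- bounds of the kernel
  have hOm : ∀ y, |Om m y| ≤ 1 := fun y => by
    unfold Om
    rw [abs_le]
    constructor <;> linarith [hP0 (‖y‖⁻¹ • y), hP1 (‖y‖⁻¹ • y)]
  have hOmm : Measurable (Om m) := by
    unfold Om
    exact (hPc.measurable.comp (measurable_norm.inv.smul measurable_id)).sub_const _
  -- a point of the support of one atom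
  have hat : ∀ I ∈ BI m, ∀ y, φ (y - ze I) ≠ 0 →
      1 / 2 ≤ Om m (x - y) ∧ 1 / 2 ≤ ‖x - y‖ ∧ ‖x - y‖ ≤ ‖zz (J - I)‖ + 1 := by
    intro I hI y hy
    obtain ⟨h1, h2, h3⟩ := hDIR m I J x y hm hI hJ hx (hφ.supp _ hy).2
    refine ⟨?_, h2, h3⟩
    unfold Om
    linarith
  have hff0 : ∀ y, 0 ≤ ff m φ y := fun y => Finset.sum_nonneg fun p _ => hφ.nonneg _
  have hsup : ∀ y, ff m φ y ≠ 0 → 1 / 2 ≤ ‖x - y‖ := by
    intro y hy
    obtain ⟨I, hI, h⟩ := Finset.exists_ne_zero_of_sum_ne_zero hy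
    exact (hat I hI y h).2.1
  set h : E2 → ℝ := fun y => β y * ff m φ y * Om m (x - y) / ‖x - y‖ ^ 2 with hh
  have hhi : Integrable h := by
    refine Integrable.mono' (hint.norm.const_mul 4) ?_ (Eventually.of_forall fun y => ?_)
    · have h1 : Measurable fun y : E2 => Om m (x - y) :=
        hOmm.comp (measurable_const.sub measurable_id)
      have h2 : Measurable fun y : E2 => ‖x - y‖ ^ 2 :=
        ((measurable_const.sub measurable_id).norm).pow_const 2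
      exact (hint.aestronglyMeasurable.mul h1.aestronglyMeasurable).mul
        (h2.inv).aestronglyMeasurable |>.congr (Eventually.of_forall fun y => by
          simp only [hh, Pi.mul_apply, Pi.inv_apply, div_eq_mul_inv])
    · simp only [hh]
      rcases eq_or_ne (ff m φ y) 0 with h0 | h0
      · simp [h0]
      · have h1 := hsup y h0
        have h2 := hOm (x - y)
        have h3 : 1 / 4 ≤ ‖x - y‖ ^ 2 := by nlinarith
        rw [norm_div, norm_mul, Real.norm_of_nonneg (sq_nonneg ‖x - y‖), Real.norm_eq_abs (Om _ _)]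
        rw [div_le_iff₀ (by linarith)]
        have h4 := norm_nonneg (β y * ff m φ y)
        have h5 : ‖β y * ff m φ y‖ * |Om m (x - y)| ≤ ‖β y * ff m φ y‖ * 1 :=
          mul_le_mul_of_nonneg_left h2 h4
        nlinarith
  -- the lower bound
  set g : E2 → ℝ := fun y => ∑ I ∈ BI m, (β0 / 2 * (1 / (‖zz (J - I)‖ + 1) ^ 2)) * φ (y - ze I)
    with hg
  have hgi : Integrable g := integrable_finsetSum _ fun I _ =>
    (hφi.comp_sub_right (ze I)).const_mul _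
  have hgh : ∀ y, g y ≤ h y := by
    intro y
    have e : h y = ∑ I ∈ BI m, β y * φ (y - ze I) * Om m (x - y) / ‖x - y‖ ^ 2 := by
      simp only [hh, ff]
      rw [Finset.mul_sum, Finset.sum_mul, Finset.sum_div]
    rw [e]
    refine Finset.sum_le_sum fun I hI => ?_
    rcases eq_or_ne (φ (y - ze I)) 0 with h0 | h0
    · simp [h0]
    · obtain ⟨h1, h2, h3⟩ := hat I hI y h0
      have hφ0 := hφ.nonneg (y - ze I)
      have hffy : ff m φ y ≠ 0 := by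
        have : φ (y - ze I) ≤ ff m φ y :=
          Finset.single_le_sum (f := fun p => φ (y - ze p)) (fun p _ => hφ.nonneg _) hI
        have h5 : 0 < φ (y - ze I) := lt_of_le_of_ne hφ0 (Ne.symm h0)
        linarith
      have hβy := hβ y hffy
      have h4 : ‖x - y‖ ^ 2 ≤ (‖zz (J - I)‖ + 1) ^ 2 :=
        pow_le_pow_left₀ (norm_nonneg _) h3 2
      have h5 : 0 < ‖x - y‖ ^ 2 := by positivity
      have h6 : β0 * (1 / 2) * φ (y - ze I) ≤ β y * φ (y - ze I) * Om m (x - y) := by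
        have h7 : β0 * (1 / 2) ≤ β y * Om m (x - y) :=
          mul_le_mul hβy h1 (by norm_num) (hβ0.trans hβy)
        nlinarith
      calc β0 / 2 * (1 / (‖zz (J - I)‖ + 1) ^ 2) * φ (y - ze I)
          = (β0 * (1 / 2) * φ (y - ze I)) / (‖zz (J - I)‖ + 1) ^ 2 := by ring
        _ ≤ (β0 * (1 / 2) * φ (y - ze I)) / ‖x - y‖ ^ 2 :=
            div_le_div_of_nonneg_left (by positivity) h5 h4
        _ ≤ (β y * φ (y - ze I) * Om m (x - y)) / ‖x - y‖ ^ 2 :=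
            div_le_div_of_nonneg_right h6 h5.le
  have hint2 : ∫ y, g y ≤ ∫ y, h y := integral_mono hgi hhi hgh
  have hgv : ∫ y, g y = β0 / 2 * (∑ I ∈ BI m, 1 / (‖zz (J - I)‖ + 1) ^ 2) * ∫ y, φ y := by
    simp only [hg]
    rw [integral_finsetSum _ fun I _ => (hφi.comp_sub_right (ze I)).const_mul _]
    rw [Finset.mul_sum, Finset.sum_mul]
    refine Finset.sum_congr rfl fun I _ => ?_
    rw [integral_const_mul, integral_sub_right_eq_self (fun y => φ y) (ze I)]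
  have hS := hSUM m J hm hJ
  refine le_trans ?_ hint2
  rw [hgv]
  have hm4 : (0 : ℝ) ≤ (m : ℝ) ^ 4 := by positivity
  have hr : 0 ≤ r0 m ^ 2 := by positivity
  have hS0 : 0 ≤ ∑ I ∈ BI m, 1 / (‖zz (J - I)‖ + 1) ^ 2 :=
    Finset.sum_nonneg fun I _ => by positivity
  have hpi : 3 < Real.pi := Real.pi_gt_three
  calc β0 * (r0 m ^ 2 * (m : ℝ) ^ 8 / 2)
      ≤ β0 / 2 * ((3 / 16 * (m : ℝ) ^ 4) * (2 * Real.pi * r0 m ^ 2 * (m : ℝ) ^ 4)) := by
        have e1 : β0 / 2 * ((3 / 16 * (m : ℝ) ^ 4) * (2 * Real.pi * r0 m ^ 2 * (m : ℝ) ^ 4)) =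
            (β0 * (r0 m ^ 2 * (m : ℝ) ^ 8)) * (3 / 16 * Real.pi) := by ring
        have e2 : β0 * (r0 m ^ 2 * (m : ℝ) ^ 8 / 2) = (β0 * (r0 m ^ 2 * (m : ℝ) ^ 8)) * (1 / 2) := by
          ring
        rw [e1, e2]
        refine mul_le_mul_of_nonneg_left (by linarith) (by positivity)
    _ ≤ β0 / 2 * ((∑ I ∈ BI m, 1 / (‖zz (J - I)‖ + 1) ^ 2) * ∫ y, φ y) := by
        refine mul_le_mul_of_nonneg_left ?_ (by positivity)
        exact mul_le_mul hS hφm (by positivity) hS0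
    _ = β0 / 2 * (∑ I ∈ BI m, 1 / (‖zz (J - I)‖ + 1) ^ 2) * ∫ y, φ y := by ring

end Run7.h889.RSI
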