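import Pool.Agent.Run7.h325.RSI.Stm

/-!
# RSI/SUM, RSI/FAR (helper889)
-/

set_option autoImplicit false

namespace Run7.h889.RSI

open MeasureTheory Filter Topology Metric Pool.Agent.Run7.h325.RSI

lemma norm_zz_sq (p : ℤ × ℤ) :
    ‖zz p‖ ^ 2 = ((p.1 : ℝ) + 1 / 2) ^ 2 + ((p.2 : ℝ) + 1 / 2) ^ 2 := by
  rw [EuclideanSpace.norm_sq_eq]
  simp [zz, Fin.sum_univ_two]

lemma norm_zz_le (p : ℤ × ℤ) (h1 : 0 ≤ p.1) (h2 : 0 ≤ p.2) :
    ‖zz p‖ ≤ (p.1 : ℝ) + p.2 + 1 := by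
  have h1' : (0 : ℝ) ≤ p.1 := by exact_mod_cast h1
  have h2' : (0 : ℝ) ≤ p.2 := by exact_mod_cast h2
  refine abs_le_of_sq_le_sq' ?_ (by positivity) |>.2
  rw [norm_zz_sq]
  nlinarith

/-- the square `[0, 2^n)²` -/
noncomputable def Bx (n : ℕ) : Finset (ℤ × ℤ) := Finset.Ico 0 (2 ^ n) ×ˢ Finset.Ico 0 (2 ^ n)

lemma card_Bx (n : ℕ) : ((Bx n).card : ℝ) = 4 ^ n := by
  have h : (Bx n).card = 2 ^ n * 2 ^ n := by
    simp only [Bx, Finset.card_product, Int.card_Ico, sub_zero]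
    norm_cast
  rw [h]
  push_cast
  rw [← mul_pow]
  norm_num

lemma Bx_sub (n : ℕ) : Bx n ⊆ Bx (n + 1) := by
  intro p hp
  simp only [Bx, Finset.mem_product, Finset.mem_Ico] at hp ⊢
  have : (2 : ℤ) ^ n ≤ 2 ^ (n + 1) := pow_le_pow_right₀ (by norm_num) (by omega)
  omega

lemma sum_Bx (n : ℕ) : 3 / 16 * (n : ℝ) ≤ ∑ p ∈ Bx n, 1 / (‖zz p‖ + 1) ^ 2 := by
  induction n with
  | zero =>
    simp only [Nat.cast_zero, mul_zero]
    exact Finset.sum_nonneg fun p _ => by positivity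
  | succ n ih =>
    rw [← Finset.sum_sdiff (Bx_sub n)]
    have hc : ((Bx (n + 1) \ Bx n).card : ℝ) = 3 * 4 ^ n := by
      rw [Finset.card_sdiff_of_subset (Bx_sub n), Nat.cast_sub (Finset.card_le_card (Bx_sub n)),
        card_Bx, card_Bx]
      ring
    have h1 : (Bx (n + 1) \ Bx n).card • (1 / (16 * 4 ^ n : ℝ)) ≤
        ∑ p ∈ Bx (n + 1) \ Bx n, 1 / (‖zz p‖ + 1) ^ 2 := by
      refine Finset.card_nsmul_le_sum _ _ _ fun p hp => ?_
      have hp' := (Finset.mem_sdiff.1 hp).1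
      simp only [Bx, Finset.mem_product, Finset.mem_Ico] at hp'
      obtain ⟨⟨h1, h2⟩, h3, h4⟩ := hp'
      have h2' : (p.1 : ℝ) + 1 ≤ 2 ^ (n + 1) := by exact_mod_cast h2
      have h4' : (p.2 : ℝ) + 1 ≤ 2 ^ (n + 1) := by exact_mod_cast h4
      have h5 := norm_zz_le p h1 h3
      have h6 : ‖zz p‖ + 1 ≤ 4 * 2 ^ n := by
        rw [pow_succ] at h2' h4'
        linarith
      have h7 : (‖zz p‖ + 1) ^ 2 ≤ 16 * 4 ^ n := by
        calc (‖zz p‖ + 1) ^ 2 ≤ (4 * 2 ^ n) ^ 2 :=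
              pow_le_pow_left₀ (by positivity) h6 2
          _ = 16 * 4 ^ n := by
              rw [mul_pow, ← pow_mul, mul_comm n 2, pow_mul]
              norm_num
      exact one_div_le_one_div_of_le (by positivity) h7
    rw [nsmul_eq_mul, hc] at h1
    have h2 : (3 * 4 ^ n : ℝ) * (1 / (16 * 4 ^ n)) = 3 / 16 := by
      field_simp
    rw [h2] at h1
    push_cast
    linarith

theorem t_SUM : S_SUM := by
  intro m J hm hJ
  have h0 := sum_Bx (m ^ 4)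
  push_cast at h0
  refine h0.trans ?_
  simp only [BJ, Finset.mem_product, Finset.mem_Ico] at hJ
  obtain ⟨⟨h1, h2⟩, h3, h4⟩ := hJ
  have e : ∑ p ∈ Bx (m ^ 4), 1 / (‖zz p‖ + 1) ^ 2 =
      ∑ I ∈ (Bx (m ^ 4)).image (fun p => J - p), 1 / (‖zz (J - I)‖ + 1) ^ 2 := by
    rw [Finset.sum_image]
    · refine Finset.sum_congr rfl fun p _ => ?_
      rw [sub_sub_cancel]
    · intro p _ q _ hpq
      exact sub_right_injective hpq
  rw [e]
  refine Finset.sum_le_sum_of_subset_of_nonneg ?_ fun I _ _ => by positivity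
  intro I hI
  obtain ⟨p, hp, rfl⟩ := Finset.mem_image.1 hI
  simp only [Bx, Finset.mem_product, Finset.mem_Ico] at hp
  obtain ⟨⟨g1, g2⟩, g3, g4⟩ := hp
  have hN : (0 : ℤ) < 2 ^ m ^ 4 := by positivity
  simp only [BI, Finset.mem_product, Finset.mem_Ico, Prod.fst_sub, Prod.snd_sub]
  omega

theorem t_FAR : S_FAR := by
  intro f Ω x η t hη hf ht
  have h1 : ∀ᶠ ε : ℝ in 𝓝[>] 0, (∫ y in {y : E2 | ε < ‖y‖}, f (x - y) * Ω y / ‖y‖ ^ 2) =
      ∫ y : E2, f (x - y) * Ω y / ‖y‖ ^ 2 := by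
    filter_upwards [Ioo_mem_nhdsGT hη] with ε hε
    refine setIntegral_eq_integral_of_forall_compl_eq_zero fun y hy => ?_
    simp only [Set.mem_ofPred_eq, not_lt] at hy
    have : f (x - y) = 0 := by
      refine hf _ ?_
      rw [show x - y - x = -y by abel, norm_neg]
      exact lt_of_le_of_lt hy hε.2
    rw [this]
    simp
  have h2 : Tendsto (fun ε : ℝ => ∫ y in {y : E2 | ε < ‖y‖}, f (x - y) * Ω y / ‖y‖ ^ 2) (𝓝[>] 0)
      (𝓝 (∫ y : E2, f (x - y) * Ω y / ‖y‖ ^ 2)) :=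
    tendsto_const_nhds.congr' (h1.mono fun ε hε => hε.symm)
  rw [tendsto_nhds_unique ht h2]
  have h3 := integral_sub_left_eq_self (fun y : E2 => 1 * f y * Ω (x - y) / ‖x - y‖ ^ 2)
    (volume : Measure E2) x
  rw [← h3]
  refine integral_congr_ae (Eventually.of_forall fun y => ?_)
  simp only [one_mul, sub_sub_cancel]

end Run7.h889.RSI
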